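import Pool.Agent.H93.EB.Targets

/-!
# Trigonometric polynomials and generic frequencies (row BAS of MP_c59857_nt)
-/

set_option autoImplicit false

namespace Pool.Agent.H84.BAS

open Finset Pool.Agent.H6.N4D

/-- `F` is a sum of finitely many exponentials with integral frequencies and small
coefficients -/
def TPol (F : ℝ → ℂ) : Prop := ∃ (R : ℕ) (c : ℕ → ℂ) (j : ℕ → ℤ), (∀ r, ‖c r‖ ≤ 1) ∧
  ∀ x, F x = ∑ r ∈ range R, c r * ee (j r * x)

lemma TPol.add {F G : ℝ → ℂ} (hF : TPol F) (hG : TPol G) : TPol (fun x => F x + G x) := by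
  obtain ⟨R, c, j, hc, hF⟩ := hF
  obtain ⟨R', c', j', hc', hG⟩ := hG
  refine ⟨R + R', fun r => if r < R then c r else c' (r - R),
    fun r => if r < R then j r else j' (r - R), ?_, ?_⟩
  · intro r
    dsimp only
    split_ifs
    · exact hc r
    · exact hc' _
  · intro x
    change F x + G x = _
    rw [sum_range_add, hF, hG]
    congr 1
    · apply sum_congr rfl
      intro r hr
      rw [mem_range] at hr
      simp only [if_pos hr]
    · apply sum_congr rfl
      intro r _
      have h : ¬ R + r < R := by omega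
      simp only [if_neg h, Nat.add_sub_cancel_left]

lemma TPol.zero : TPol (fun _ => 0) := ⟨0, fun _ => 0, fun _ => 0, by simp, by simp⟩

lemma TPol.single {c : ℂ} (hc : ‖c‖ ≤ 1) (j : ℤ) : TPol (fun x => c * ee (j * x)) :=
  ⟨1, fun _ => c, fun _ => j, fun _ => hc, fun x => by simp⟩

lemma TPol.nsmul {F : ℝ → ℂ} (hF : TPol F) (n : ℕ) : TPol (fun x => n * F x) := by
  induction n with
  | zero => simpa using TPol.zero
  | succ n ih =>
    have := ih.add hF
    refine (funext fun x => ?_ : (fun x => ((n + 1 : ℕ) : ℂ) * F x) = fun x => n * F x + F x) ▸ this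
    push_cast; ring

lemma TPol.small {F : ℝ → ℂ} (hF : TPol F) {a : ℂ} (ha : ‖a‖ ≤ 1) : TPol (fun x => a * F x) := by
  obtain ⟨R, c, j, hc, hF⟩ := hF
  refine ⟨R, fun r => a * c r, j, ?_, ?_⟩
  · intro r
    rw [norm_mul]
    calc ‖a‖ * ‖c r‖ ≤ 1 * 1 := mul_le_mul ha (hc r) (norm_nonneg _) zero_le_one
      _ = 1 := one_mul 1
  · intro x
    change a * F x = _
    rw [hF, mul_sum]
    apply sum_congr rfl
    intro r _
    ring

lemma TPol.smul {F : ℝ → ℂ} (hF : TPol F) (a : ℝ) : TPol (fun x => (a : ℂ) * F x) := by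
  obtain ⟨n, hn⟩ := exists_nat_ge (max |a| 1)
  have h1 : |a| ≤ n := (le_max_left _ _).trans hn
  have h2 : (1 : ℝ) ≤ n := (le_max_right _ _).trans hn
  have h3 : (0 : ℝ) < n := by linarith
  have h4 : ‖((a / n : ℝ) : ℂ)‖ ≤ 1 := by
    rw [Complex.norm_real, Real.norm_eq_abs, abs_div, abs_of_pos h3, div_le_one h3]
    exact h1
  have := (hF.small h4).nsmul n
  refine (funext fun x => ?_ : (fun x => (a : ℂ) * F x) =
    fun x => (n : ℂ) * (((a / n : ℝ) : ℂ) * F x)) ▸ this
  have h5 : (n : ℂ) ≠ 0 := by exact_mod_cast h3.ne'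
  push_cast
  field_simp

/-- multiplication by an exponential -/
lemma TPol.shift {F : ℝ → ℂ} (hF : TPol F) (k : ℤ) : TPol (fun x => ee (k * x) * F x) := by
  obtain ⟨R, c, j, hc, hF⟩ := hF
  refine ⟨R, c, fun r => k + j r, hc, ?_⟩
  intro x
  change ee (k * x) * F x = _
  rw [hF, mul_sum]
  apply sum_congr rfl
  intro r _
  push_cast
  rw [add_mul, ee_add]
  ring

lemma cos_eq_ee (x : ℝ) : ((Real.cos (2 * Real.pi * x) : ℝ) : ℂ) = (ee x + ee (-x)) / 2 := by
  unfold ee
  rw [Complex.ofReal_cos, Complex.cos]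
  congr 2
  push_cast
  ring_nf

lemma TPol.cos {F : ℝ → ℂ} (hF : TPol F) :
    TPol (fun x => ((Real.cos (2 * Real.pi * x) : ℝ) : ℂ) * F x) := by
  have h1 := (hF.shift 1).add (hF.shift (-1))
  have h2 := h1.small (a := 1 / 2) (by norm_num)
  refine (funext fun x => ?_ : (fun x => ((Real.cos (2 * Real.pi * x) : ℝ) : ℂ) * F x) = _) ▸ h2
  rw [cos_eq_ee]
  push_cast
  rw [one_mul, neg_one_mul]
  ring

lemma TPol.pow_cos (n : ℕ) : TPol (fun x => ((Real.cos (2 * Real.pi * x) : ℝ) : ℂ) ^ n) := by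
  induction n with
  | zero =>
    have := TPol.single (c := 1) (by simp) 0
    refine (funext fun x => ?_ :
      (fun x => ((Real.cos (2 * Real.pi * x) : ℝ) : ℂ) ^ 0) = _) ▸ this
    have h0 : ee (((0 : ℤ) : ℝ) * x) = 1 := by simpa using ee_int 0
    rw [h0]; simp
  | succ n ih =>
    have := ih.cos
    refine (funext fun x => ?_ :
      (fun x => ((Real.cos (2 * Real.pi * x) : ℝ) : ℂ) ^ (n + 1)) = _) ▸ this
    rw [pow_succ']

/-- a polynomial in the cosine is a sum of exponentials -/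
theorem TPol.poly (p : Polynomial ℝ) :
    TPol (fun x => ((p.eval (Real.cos (2 * Real.pi * x)) : ℝ) : ℂ)) := by
  induction p using Polynomial.induction_on' with
  | add p q hp hq =>
    have := hp.add hq
    refine (funext fun x => ?_ : (fun x : ℝ =>
      (((p + q).eval (Real.cos (2 * Real.pi * x)) : ℝ) : ℂ)) = _) ▸ this
    rw [Polynomial.eval_add]; push_cast; rfl
  | monomial n a =>
    have := (TPol.pow_cos n).smul a
    refine (funext fun x => ?_ : (fun x : ℝ =>
      (((Polynomial.monomial n a).eval (Real.cos (2 * Real.pi * x)) : ℝ) : ℂ)) = _) ▸ this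
    rw [Polynomial.eval_monomial]; push_cast; rfl

/-! ## geometric sums -/

lemma norm_ee_sub_one_ge (x : ℝ) : 4 * nd x ≤ ‖ee x - 1‖ := by
  obtain ⟨k, hk⟩ := exists_int x
  have h1 : ee x = ee (x - k) := by
    have : ee (x - k) = ee x * ee ((-k : ℤ) : ℝ) := by
      rw [← ee_add]; congr 1; push_cast; ring
    rw [this, ee_int, mul_one]
  rw [h1, ← hk]
  set y := x - k with hy
  have hy2 : |y| ≤ 1 / 2 := by rw [hk]; exact nd_le_half x
  have h2 : ‖ee y - 1‖ = 2 * |Real.sin (Real.pi * y)| := by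
    have h3 : ee y - 1 = ee (y / 2) * (ee (y / 2) - ee (-(y / 2))) := by
      have e1 : ee (y / 2) * ee (y / 2) = ee y := by rw [← ee_add]; congr 1; ring
      have e2 : ee (y / 2) * ee (-(y / 2)) = 1 := by
        rw [← ee_add, add_neg_cancel]; simpa using ee_int 0
      rw [mul_sub, e1, e2]
    have h4 : ee (y / 2) - ee (-(y / 2)) = 2 * Complex.I * (Real.sin (Real.pi * y) : ℝ) := by
      unfold ee
      rw [Complex.ofReal_sin, Complex.sin]
      have e3 : ((2 * Real.pi * (y / 2) : ℝ) : ℂ) * Complex.I = ((Real.pi * y : ℝ) : ℂ) * Complex.I := by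
        congr 2; ring
      have e4 : ((2 * Real.pi * (-(y / 2)) : ℝ) : ℂ) * Complex.I =
          -((Real.pi * y : ℝ) : ℂ) * Complex.I := by
        push_cast; ring
      rw [e3, e4]
      have hI : Complex.I * Complex.I = -1 := Complex.I_mul_I
      linear_combination (Complex.exp (((Real.pi * y : ℝ) : ℂ) * Complex.I) -
        Complex.exp (-((Real.pi * y : ℝ) : ℂ) * Complex.I)) * hI
    rw [h3, norm_mul, norm_ee, one_mul, h4, norm_mul, norm_mul, Complex.norm_I,
      Complex.norm_real, Real.norm_eq_abs]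
    norm_num
  rw [h2]
  have h5 : 2 * |y| ≤ |Real.sin (Real.pi * y)| := by
    have h6 : |Real.sin (Real.pi * y)| = Real.sin (Real.pi * |y|) := by
      rcases abs_cases y with ⟨h, h0⟩ | ⟨h, h0⟩
      · rw [h, abs_of_nonneg]
        apply Real.sin_nonneg_of_nonneg_of_le_pi
        · have := Real.pi_pos; positivity
        · have := Real.pi_pos; rw [h] at hy2; nlinarith
      · rw [h, mul_neg, Real.sin_neg, abs_of_nonpos]
        apply Real.sin_nonpos_of_nonpos_of_neg_pi_le
        · have := Real.pi_pos; nlinarith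
        · have := Real.pi_pos; rw [h] at hy2; nlinarith
    rw [h6]
    have h7 := Real.mul_le_sin (x := Real.pi * |y|)
      (mul_nonneg Real.pi_pos.le (abs_nonneg y)) (by have := Real.pi_pos; nlinarith)
    have h8 : 2 / Real.pi * (Real.pi * |y|) = 2 * |y| := by
      field_simp
    linarith
  linarith

/-- geometric sums -/
lemma geom_ee (θ : ℝ) (n S : ℕ) :
    2 * nd θ * ‖∑ m ∈ Ioc n (n + S), ee (θ * m)‖ ≤ 1 := by
  have h1 : (ee θ - 1) * ∑ m ∈ Ioc n (n + S), ee (θ * m) =
      ee (θ * (n + S + 1 : ℕ)) - ee (θ * (n + 1 : ℕ)) := by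
    induction S with
    | zero => simp
    | succ S ih =>
      have e : Ioc n (n + (S + 1)) = insert (n + S + 1) (Ioc n (n + S)) := by
        ext m; simp only [mem_Ioc, mem_insert]; omega
      rw [e, sum_insert (by simp [mem_Ioc]), mul_add, ih]
      have : ee (θ * ((n + (S + 1) + 1 : ℕ) : ℝ)) = ee θ * ee (θ * ((n + S + 1 : ℕ) : ℝ)) := by
        rw [← ee_add]; congr 1; push_cast; ring
      rw [this]; ring
  have h2 := norm_ee_sub_one_ge θ
  have h3 : ‖(ee θ - 1) * ∑ m ∈ Ioc n (n + S), ee (θ * m)‖ ≤ 2 := by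
    rw [h1]
    refine (norm_sub_le _ _).trans ?_
    rw [norm_ee, norm_ee]; norm_num
  rw [norm_mul] at h3
  have h4 : 4 * nd θ * ‖∑ m ∈ Ioc n (n + S), ee (θ * m)‖ ≤ 2 :=
    (mul_le_mul_of_nonneg_right h2 (norm_nonneg _)).trans h3
  linarith

end Pool.Agent.H84.BAS
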