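import Pool.Agent.H84.BAS.EQ

/-!
# Row BAS of MP_c59857_nt: from structure on windows to sums of exponentials
-/

set_option autoImplicit false

namespace Pool.Agent.H84.BAS

open Finset Pool.Agent.H6.N4D Pool.Agent.H93.EB

/-- the truncated linear function -/
noncomputable def cl (L : ℝ) (c : ℝ) : ℝ := max (-1) (min 1 (L * c))

lemma cl_cont (L : ℝ) : Continuous (cl L) := by
  unfold cl; fun_prop

lemma abs_cl_le (L c : ℝ) : |cl L c| ≤ 1 := by
  unfold cl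
  rw [abs_le]
  exact ⟨le_max_left _ _, max_le (by norm_num) (min_le_left _ _)⟩

/-- the error of the approximation at one place -/
lemma pt_err {l : ℕ} (hl : 1 ≤ l) {ρ : ℝ} (h1 : ρ ≤ 1) {p c lam : ℝ}
    (hp : |p - cl (2 * l) c| ≤ ρ) (hc : |c| ≤ 1) (hlam : lam = 1 ∨ lam = -1) :
    (lam - p) ^ 2 ≤ ρ ^ 2 + 36 * (1 - c ^ 2) ^ (4 * l ^ 2) + 9 * (if lam * c ≤ 0 then 1 else 0) := by
  have hc2 : 0 ≤ 1 - c ^ 2 := by nlinarith [abs_le.1 hc, sq_abs c, abs_nonneg c]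
  have hpow : 0 ≤ (1 - c ^ 2) ^ (4 * l ^ 2) := pow_nonneg hc2 _
  have hcl := abs_cl_le (2 * l) c
  have hlam2 : |lam| = 1 := by rcases hlam with h | h <;> rw [h] <;> simp
  have h9 : (lam - p) ^ 2 ≤ 9 := by
    have h2 : |lam - p| ≤ 3 := by
      calc |lam - p| = |lam - cl (2 * l) c - (p - cl (2 * l) c)| := by congr 1; ring
        _ ≤ |lam - cl (2 * l) c| + |p - cl (2 * l) c| := abs_sub _ _
        _ ≤ (|lam| + |cl (2 * l) c|) + |p - cl (2 * l) c| := by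
            gcongr; exact abs_sub _ _
        _ ≤ 3 := by rw [hlam2]; linarith
    rw [← sq_abs]
    nlinarith [abs_nonneg (lam - p)]
  split_ifs with hs
  · nlinarith [sq_nonneg ρ]
  · push Not at hs
    have hl' : (1 : ℝ) ≤ l := by exact_mod_cast hl
    by_cases hL : 1 ≤ 2 * l * |c|
    · have h3 : cl (2 * l) c = lam := by
        unfold cl
        rcases hlam with h | h
        · rw [h, one_mul] at hs
          rw [abs_of_pos hs] at hL
          rw [h, min_eq_left hL]; norm_num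
        · rw [h] at hs
          have hs' : c < 0 := by linarith
          rw [abs_of_neg hs'] at hL
          rw [h, min_eq_right (by linarith), max_eq_left (by linarith)]
      rw [h3] at hp
      have h4 : (lam - p) ^ 2 ≤ ρ ^ 2 := by
        rw [← sq_abs, ← abs_neg, neg_sub]
        exact pow_le_pow_left₀ (abs_nonneg _) hp 2
      nlinarith
    · push Not at hL
      have h5 : 1 / 4 ≤ (1 - c ^ 2) ^ (4 * l ^ 2) := by
        have h6 : 4 * (l : ℝ) ^ 2 * c ^ 2 ≤ 1 := by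
          have : (2 * l * |c|) ^ 2 ≤ 1 := by
            apply pow_le_one₀ (by positivity) hL.le
          rw [mul_pow, mul_pow, sq_abs] at this
          linarith
        have h7 : (1 : ℝ) + (2 * l ^ 2 : ℕ) * (-(c ^ 2)) ≤ (1 + -(c ^ 2)) ^ (2 * l ^ 2) := by
          apply one_add_mul_le_pow
          linarith
        have h8 : 1 / 2 ≤ (1 - c ^ 2) ^ (2 * l ^ 2) := by
          have e : (1 : ℝ) + -(c ^ 2) = 1 - c ^ 2 := by ring
          rw [e] at h7
          push_cast at h7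
          nlinarith
        have e2 : (1 - c ^ 2) ^ (4 * l ^ 2) = (1 - c ^ 2) ^ (2 * l ^ 2) * (1 - c ^ 2) ^ (2 * l ^ 2) := by
          rw [← pow_add]; congr 1; ring
        rw [e2]
        nlinarith
      nlinarith [sq_nonneg ρ]

/-- the mean square error on one window -/
lemma window_err {l : ℕ} (hl : 1 ≤ l) {ρ : ℝ} (h1 : ρ ≤ 1) {p : ℝ → ℝ}
    (hp : ∀ c ∈ Set.Icc (-1 : ℝ) 1, |p c - cl (2 * l) c| ≤ ρ) {η θ : ℝ} (hη : 0 < η)
    (hθ : ∀ q : ℕ, 1 ≤ q → q ≤ 2 * (4 * l ^ 2) → η ≤ nd (q * θ)) (φ : ℝ) (n' a S : ℕ)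
    (hS : 1 ≤ S) {lam : ℕ → ℝ} (hlam : ∀ n, lam n = 1 ∨ lam n = -1) :
    (∑ m ∈ Ioc a (a + S),
      (lam m - p (Real.cos (2 * Real.pi * (θ * ((m : ℝ) - n') + φ)))) ^ 2) / S ≤
      ρ ^ 2 + 36 / Real.sqrt (2 * (4 * l ^ 2 : ℕ) + 1) + 18 / (η * S) +
        9 * (((∑ m ∈ Ioc a (a + S), if lam m *
          Real.cos (2 * Real.pi * (θ * ((m : ℝ) - n') + φ)) ≤ 0 then (1 : ℝ) else 0)) / S) := by
  have hS' : (0 : ℝ) < S := by exact_mod_cast hS
  have e1 : ∀ m : ℕ, (1 - Real.cos (2 * Real.pi * (θ * ((m : ℝ) - n') + φ)) ^ 2) ^ (4 * l ^ 2) =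
      Real.cos (2 * Real.pi * (θ * m + (φ - θ * n' - 1 / 4))) ^ (2 * (4 * l ^ 2)) := by
    intro m
    rw [pow_mul _ 2 (4 * l ^ 2)]
    congr 1
    have : 2 * Real.pi * (θ * m + (φ - θ * n' - 1 / 4)) =
        2 * Real.pi * (θ * ((m : ℝ) - n') + φ) - Real.pi / 2 := by ring
    rw [this, Real.cos_sub_pi_div_two, Real.sin_sq]
  have h2 : ∀ m ∈ Ioc a (a + S),
      (lam m - p (Real.cos (2 * Real.pi * (θ * ((m : ℝ) - n') + φ)))) ^ 2 ≤
      ρ ^ 2 + 36 * Real.cos (2 * Real.pi * (θ * m + (φ - θ * n' - 1 / 4))) ^ (2 * (4 * l ^ 2)) +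
        9 * (if lam m * Real.cos (2 * Real.pi * (θ * ((m : ℝ) - n') + φ)) ≤ 0 then (1 : ℝ)
          else 0) := by
    intro m _
    rw [← e1]
    have hc : |Real.cos (2 * Real.pi * (θ * ((m : ℝ) - n') + φ))| ≤ 1 := Real.abs_cos_le_one _
    exact pt_err hl h1 (hp _ (by rw [Set.mem_Icc]; exact abs_le.1 hc)) hc (hlam m)
  have h3 := sum_le_sum h2
  rw [sum_add_distrib, sum_add_distrib, ← mul_sum, ← mul_sum, sum_const, Nat.card_Ioc,
    nsmul_eq_mul] at h3
  have h4 := cos_pow_mean hη hθ (φ - θ * n' - 1 / 4) a S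
  rw [show a + S - a = S by omega] at h3
  rw [div_le_iff₀ hS']
  refine h3.trans ?_
  have h5 : (ρ ^ 2 + 36 / Real.sqrt (2 * (4 * l ^ 2 : ℕ) + 1) + 18 / (η * S) +
        9 * (((∑ m ∈ Ioc a (a + S), if lam m *
          Real.cos (2 * Real.pi * (θ * ((m : ℝ) - n') + φ)) ≤ 0 then (1 : ℝ) else 0)) / S)) * S =
      S * ρ ^ 2 + 36 * (S / Real.sqrt (2 * (4 * l ^ 2 : ℕ) + 1) + 1 / (2 * η)) +
        9 * (∑ m ∈ Ioc a (a + S), if lam m *
          Real.cos (2 * Real.pi * (θ * ((m : ℝ) - n') + φ)) ≤ 0 then (1 : ℝ) else 0) := by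
    have hs : Real.sqrt (2 * (4 * l ^ 2 : ℕ) + 1) ≠ 0 := by positivity
    field_simp
    ring
  rw [h5]
  linarith

lemma sum_Ioc_range (f : ℕ → ℝ) (a S : ℕ) :
    ∑ m ∈ Ioc a (a + S), f m = ∑ s ∈ range S, f (a + s + 1) := by
  apply Finset.sum_nbij' (fun m => m - (a + 1)) (fun s => a + s + 1)
  · intro m hm
    rw [mem_Ioc] at hm
    rw [mem_range]; omega
  · intro m hm
    rw [mem_range] at hm
    rw [mem_Ioc]; omega
  · intro m hm
    rw [mem_Ioc] at hm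
    omega
  · intro m hm
    omega
  · intro m hm
    rw [mem_Ioc] at hm
    congr 1; omega

/-- the windows inside a long window -/
lemma sum_windows (f : ℕ → ℝ) (hf : ∀ m, 0 ≤ f m) (n' S T H : ℕ) (h : S + T ≤ H) :
    ∑ t ∈ range T, ∑ m ∈ Ioc (n' + t) (n' + t + S), f m ≤ S * ∑ m ∈ Ioc n' (n' + H), f m := by
  simp_rw [sum_Ioc_range]
  rw [sum_comm]
  have h2 : ∀ s ∈ range S, ∑ t ∈ range T, f (n' + t + s + 1) ≤
      ∑ m ∈ range H, f (n' + m + 1) := by
    intro s hs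
    rw [mem_range] at hs
    have e : ∑ t ∈ range T, f (n' + t + s + 1) = ∑ t ∈ range T, f (n' + s + t + 1) := by
      apply sum_congr rfl
      intro t _
      congr 1; omega
    rw [e, ← sum_Ioc_range, ← sum_Ioc_range]
    apply sum_le_sum_of_subset_of_nonneg
    · intro m hm
      rw [mem_Ioc] at hm ⊢; omega
    · intro m _ _
      exact hf m
  refine (sum_le_sum h2).trans ?_
  rw [sum_const, card_range, nsmul_eq_mul]

lemma sum_inv_le (X : ℕ) : ∑ n ∈ Icc 1 X, 1 / (n : ℝ) ≤ 1 + Real.log X := by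
  have h := harmonic_le_one_add_log X
  have e : ((harmonic X : ℚ) : ℝ) = ∑ n ∈ Icc 1 X, 1 / (n : ℝ) := by
    rw [harmonic_eq_sum_Icc]
    push_cast
    apply sum_congr rfl
    intro i _
    rw [one_div]
  linarith

open Classical in
/-- the error of the approximation on the window `(a, a + S]` by the wave of the window at `n'` -/
noncomputable def VV (lam : ℕ → ℝ) (Q : ℕ) (η e₁ : ℝ) (H S : ℕ) (p : ℝ → ℝ) (θ φ : ℕ → ℝ)
    (n' a : ℕ) : ℝ :=
  if GW lam Q η e₁ H n' then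
    (∑ m ∈ Ioc a (a + S),
      (lam m - p (Real.cos (2 * Real.pi * (θ n' * ((m : ℝ) - n') + φ n')))) ^ 2) / S
  else 1

lemma VV_nonneg (lam : ℕ → ℝ) (Q : ℕ) (η e₁ : ℝ) (H S : ℕ) (p : ℝ → ℝ) (θ φ : ℕ → ℝ)
    (n' a : ℕ) : 0 ≤ VV lam Q η e₁ H S p θ φ n' a := by
  unfold VV
  split_ifs
  · positivity
  · norm_num

/-- the sum of exponentials -/
lemma rep {R : ℕ} {c : ℕ → ℂ} {j : ℕ → ℤ} (hc : ∀ r, ‖c r‖ ≤ 1) {p : ℝ → ℝ}
    (hp : ∀ x : ℝ, ((p (Real.cos (2 * Real.pi * x)) : ℝ) : ℂ) =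
      ∑ r ∈ range R, c r * ee (j r * x)) (lam : ℕ → ℝ) (hlam : ∀ n, lam n = 1 ∨ lam n = -1)
    (Q : ℕ) (η e₁ : ℝ) (H S : ℕ) (hS : 1 ≤ S) (θ φ : ℕ → ℝ) (n' a : ℕ) :
    ∃ (b : ℕ → ℂ) (β : ℕ → ℝ), (∀ r, ‖b r‖ ≤ 1) ∧
      (∑ m ∈ Ioc a (a + S), ‖(lam m : ℂ) - ∑ r ∈ range R, b r * ee (β r * m)‖ ^ 2) / S =
        VV lam Q η e₁ H S p θ φ n' a := by
  have hS' : (S : ℝ) ≠ 0 := by positivity
  unfold VV
  split_ifs with hg
  · refine ⟨fun r => c r * ee (j r * (φ n' - θ n' * n')), fun r => j r * θ n', ?_, ?_⟩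
    · intro r
      rw [norm_mul, norm_ee, mul_one]; exact hc r
    · congr 1
      apply sum_congr rfl
      intro m _
      have h1 : ∑ r ∈ range R, c r * ee (j r * (φ n' - θ n' * n')) * ee (j r * θ n' * m) =
          ((p (Real.cos (2 * Real.pi * (θ n' * ((m : ℝ) - n') + φ n'))) : ℝ) : ℂ) := by
        rw [hp]
        apply sum_congr rfl
        intro r _
        rw [mul_assoc, ← ee_add]; congr 2; ring
      rw [h1, ← Complex.ofReal_sub, Complex.norm_real, Real.norm_eq_abs, sq_abs]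
  · refine ⟨fun _ => 0, fun _ => 0, by simp, ?_⟩
    have h1 : ∀ m ∈ Ioc a (a + S), ‖(lam m : ℂ) - ∑ r ∈ range R, 0 * ee (0 * m)‖ ^ 2 = 1 := by
      intro m _
      simp only [zero_mul, sum_const_zero, sub_zero]
      rw [Complex.norm_real, Real.norm_eq_abs, sq_abs]
      rcases hlam m with h | h <;> rw [h] <;> norm_num
    rw [sum_congr rfl h1, sum_const, Nat.card_Ioc, show a + S - a = S by omega, nsmul_eq_mul,
      mul_one, div_self hS']

/-- the mean error of the subwindows of one long window -/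
lemma mean_err {l : ℕ} (hl : 1 ≤ l) {ρ : ℝ} (h1 : ρ ≤ 1) {p : ℝ → ℝ}
    (hp : ∀ c ∈ Set.Icc (-1 : ℝ) 1, |p c - cl (2 * l) c| ≤ ρ) {η e₁ : ℝ} (hη : 0 < η)
    {S T H : ℕ} (hS : 1 ≤ S) (hT : 1 ≤ T) (hH : S + T = H) (hT2 : H ≤ 2 * T)
    {lam : ℕ → ℝ} (hlam : ∀ n, lam n = 1 ∨ lam n = -1) (he₁ : 0 ≤ e₁) {θ φ : ℕ → ℝ}
    (hθ : ∀ n, GW lam (2 * (4 * l ^ 2)) η e₁ H n →
      GD lam (2 * (4 * l ^ 2)) η e₁ H n (θ n) (φ n)) (n' : ℕ) :
    (∑ t ∈ range T, VV lam (2 * (4 * l ^ 2)) η e₁ H S p θ φ n' (n' + t)) / T ≤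
      ind (¬ GW lam (2 * (4 * l ^ 2)) η e₁ H n') +
      (ρ ^ 2 + 36 / Real.sqrt (2 * (4 * l ^ 2 : ℕ) + 1) + 18 / (η * S) + 18 * e₁) := by
  have hS' : (0 : ℝ) < S := by exact_mod_cast hS
  have hT' : (0 : ℝ) < T := by exact_mod_cast hT
  set W : ℝ := ρ ^ 2 + 36 / Real.sqrt (2 * (4 * l ^ 2 : ℕ) + 1) + 18 / (η * S) with hW
  have hW0 : 0 ≤ W := by positivity
  unfold ind
  by_cases hg : GW lam (2 * (4 * l ^ 2)) η e₁ H n'
  · rw [if_neg (not_not.2 hg), zero_add]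
    obtain ⟨hq, hcard⟩ := hθ n' hg
    have h2 : ∀ t ∈ range T, VV lam (2 * (4 * l ^ 2)) η e₁ H S p θ φ n' (n' + t) ≤
        W + 9 * (((∑ m ∈ Ioc (n' + t) (n' + t + S), if lam m *
          Real.cos (2 * Real.pi * (θ n' * ((m : ℝ) - n') + φ n')) ≤ 0 then (1 : ℝ)
            else 0)) / S) := by
      intro t _
      unfold VV
      rw [if_pos hg]
      exact window_err hl h1 hp hη hq (φ n') n' (n' + t) S hS hlam
    have h3 := sum_le_sum h2
    rw [sum_add_distrib, sum_const, card_range, nsmul_eq_mul, ← mul_sum, ← sum_div] at h3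
    have h4 := sum_windows (fun m => if lam m *
      Real.cos (2 * Real.pi * (θ n' * ((m : ℝ) - n') + φ n')) ≤ 0 then (1 : ℝ) else 0)
      (fun m => by split_ifs <;> norm_num) n' S T H hH.le
    have h5 : (∑ m ∈ Ioc n' (n' + H), if lam m *
      Real.cos (2 * Real.pi * (θ n' * ((m : ℝ) - n') + φ n')) ≤ 0 then (1 : ℝ) else 0) ≤
        e₁ * H := by
      rw [sum_boole]
      refine le_trans (le_of_eq ?_) hcard
      rfl
    have h6 : (H : ℝ) ≤ 2 * T := by exact_mod_cast hT2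
    rw [div_le_iff₀ hT']
    have h7 : (∑ t ∈ range T, ∑ m ∈ Ioc (n' + t) (n' + t + S), if lam m *
        Real.cos (2 * Real.pi * (θ n' * ((m : ℝ) - n') + φ n')) ≤ 0 then (1 : ℝ) else 0) / S ≤
          e₁ * H := by
      rw [div_le_iff₀ hS']
      calc _ ≤ _ := h4
        _ ≤ S * (e₁ * H) := mul_le_mul_of_nonneg_left h5 hS'.le
        _ = e₁ * H * S := by ring
    have h8 : e₁ * H ≤ e₁ * (2 * T) := mul_le_mul_of_nonneg_left h6 he₁
    nlinarith
  · rw [if_pos hg]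
    have h2 : ∀ t ∈ range T, VV lam (2 * (4 * l ^ 2)) η e₁ H S p θ φ n' (n' + t) = 1 := by
      intro t _
      unfold VV; rw [if_neg hg]
    rw [sum_congr rfl h2, sum_const, card_range, nsmul_eq_mul, mul_one, div_self hT'.ne']
    linarith

/-- changing the order of summation -/
lemma swap_sum (V : ℕ → ℕ → ℝ) (hV : ∀ a b, 0 ≤ V a b) (T X : ℕ) (hT : 1 ≤ T) :
    ∑ n ∈ (Icc 1 X).filter (fun n => T < n), (∑ t ∈ range T, V (n - t) n) / T / n ≤
      ∑ n ∈ Icc 1 X, (∑ t ∈ range T, V n (n + t)) / T / n := by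
  have hT' : (0 : ℝ) < T := by exact_mod_cast hT
  have e1 : ∀ (F : Finset ℕ) (U : ℕ → ℕ → ℝ), ∑ n ∈ F, (∑ t ∈ range T, U n t) / T / n =
      (∑ t ∈ range T, ∑ n ∈ F, U n t / n) / T := by
    intro F U
    rw [sum_comm, sum_div]
    apply sum_congr rfl
    intro n _
    rw [← sum_div, div_right_comm]
  rw [e1 _ (fun n t => V (n - t) n), e1 _ (fun n t => V n (n + t))]
  apply div_le_div_of_nonneg_right _ hT'.le
  apply sum_le_sum
  intro t ht
  rw [mem_range] at ht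
  have h1 : ∀ n ∈ (Icc 1 X).filter (fun n => T < n),
      V (n - t) n / n ≤ V (n - t) ((n - t) + t) / ((n - t : ℕ) : ℝ) := by
    intro n hn
    rw [mem_filter, mem_Icc] at hn
    have h2 : n - t + t = n := by omega
    rw [h2]
    apply div_le_div_of_nonneg_left (hV _ _)
    · have : 0 < n - t := by omega
      exact_mod_cast this
    · exact_mod_cast Nat.sub_le n t
  refine (sum_le_sum h1).trans ?_
  have h3 : ∑ n ∈ (Icc 1 X).filter (fun n => T < n),
      V (n - t) ((n - t) + t) / ((n - t : ℕ) : ℝ) =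
      ∑ n ∈ ((Icc 1 X).filter (fun n => T < n)).image (fun n => n - t),
        V n (n + t) / (n : ℝ) := by
    rw [sum_image]
    intro a ha b hb hab
    rw [mem_coe, mem_filter, mem_Icc] at ha hb
    dsimp only at hab
    omega
  rw [h3]
  apply sum_le_sum_of_subset_of_nonneg
  · intro n hn
    rw [mem_image] at hn
    obtain ⟨m, hm, rfl⟩ := hn
    rw [mem_filter, mem_Icc] at hm
    rw [mem_Icc]; omega
  · intro n _ _
    exact div_nonneg (hV _ _) (Nat.cast_nonneg _)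

/-- the bound for the sum over all windows -/
lemma total_le {X H T : ℕ} (hT : 1 ≤ T) (hTH : T ≤ H) (V : ℕ → ℕ → ℝ)
    (hV : ∀ a b, 0 ≤ V a b) {D W : ℝ} {I : ℕ → ℝ} (hW : 0 ≤ W)
    (hm : ∀ n, (∑ t ∈ range T, V n (n + t)) / T ≤ I n + W)
    (hI : ∑ n ∈ Icc 1 X, I n / n ≤ D) (A : ℕ → ℝ)
    (hA : ∀ n, A n ≤ if n ≤ T then 1 else (∑ t ∈ range T, V (n - t) n) / T) :
    ∑ n ∈ Icc 1 X, A n / n ≤ (1 + Real.log H) + D + W * (1 + Real.log X) := by
  have h1 : ∑ n ∈ Icc 1 X, A n / n ≤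
      ∑ n ∈ (Icc 1 X).filter (fun n => ¬ T < n), 1 / (n : ℝ) +
      ∑ n ∈ (Icc 1 X).filter (fun n => T < n), (∑ t ∈ range T, V (n - t) n) / T / n := by
    rw [← sum_filter_add_sum_filter_not (Icc 1 X) (fun n => T < n), add_comm]
    apply add_le_add
    · apply sum_le_sum
      intro n hn
      rw [mem_filter] at hn
      have h2 := hA n
      rw [if_pos (by omega)] at h2
      exact div_le_div_of_nonneg_right h2 (Nat.cast_nonneg _)
    · apply sum_le_sum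
      intro n hn
      rw [mem_filter] at hn
      have h2 := hA n
      rw [if_neg (by omega)] at h2
      exact div_le_div_of_nonneg_right h2 (Nat.cast_nonneg _)
  have h2 : ∑ n ∈ (Icc 1 X).filter (fun n => ¬ T < n), 1 / (n : ℝ) ≤ 1 + Real.log H := by
    refine le_trans ?_ (sum_inv_le H)
    apply sum_le_sum_of_subset_of_nonneg
    · intro n hn
      rw [mem_filter, mem_Icc] at hn
      rw [mem_Icc]; omega
    · intro n _ _
      positivity
  have h3 : ∑ n ∈ Icc 1 X, (∑ t ∈ range T, V n (n + t)) / T / n ≤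
      D + W * (1 + Real.log X) := by
    have h4 : ∀ n ∈ Icc 1 X, (∑ t ∈ range T, V n (n + t)) / T / n ≤ I n / n + W * (1 / n) := by
      intro n _
      rw [mul_one_div, ← add_div]
      exact div_le_div_of_nonneg_right (hm n) (Nat.cast_nonneg _)
    refine (sum_le_sum h4).trans ?_
    rw [sum_add_distrib, ← mul_sum]
    exact add_le_add hI (mul_le_mul_of_nonneg_left (sum_inv_le X) hW)
  have h5 := swap_sum V hV T X hT
  linarith

theorem pf_BAS : T_BAS := by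
  intro e he
  -- the parameters
  set ρ : ℝ := min 1 (e / 16) with hρ
  have hρ0 : 0 < ρ := lt_min one_pos (by positivity)
  have hρ1 : ρ ≤ 1 := min_le_left _ _
  have hρe : ρ ^ 2 ≤ e / 16 := by
    have h2 : ρ ≤ e / 16 := min_le_right _ _
    nlinarith
  obtain ⟨l, hl⟩ := exists_nat_ge (max (288 / e) 1)
  have hl1 : (1 : ℝ) ≤ l := (le_max_right _ _).trans hl
  have hl1' : 1 ≤ l := by exact_mod_cast hl1
  have hle : 288 / e ≤ l := (le_max_left _ _).trans hl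
  have hsq : 36 / Real.sqrt (2 * (4 * l ^ 2 : ℕ) + 1) ≤ e / 16 := by
    have h2 : 2 * (l : ℝ) ≤ Real.sqrt (2 * (4 * l ^ 2 : ℕ) + 1) := by
      apply Real.le_sqrt_of_sq_le
      push_cast
      nlinarith
    have h3 : (0 : ℝ) < 2 * l := by linarith
    calc 36 / Real.sqrt (2 * (4 * l ^ 2 : ℕ) + 1) ≤ 36 / (2 * l) :=
          div_le_div_of_nonneg_left (by norm_num) h3 h2
      _ ≤ e / 16 := by
          rw [div_le_iff₀ he] at hle
          rw [div_le_div_iff₀ h3 (by norm_num)]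
          linarith
  obtain ⟨p, hp⟩ := exists_polynomial_near_of_continuousOn (-1) 1 (cl (2 * l))
    (cl_cont _).continuousOn ρ hρ0
  obtain ⟨R, c, j, hc, hpc⟩ := TPol.poly p
  refine ⟨e / 2, R, 2 * (4 * l ^ 2), by positivity, ?_⟩
  intro η hη
  obtain ⟨s₀, hs₀⟩ := exists_nat_ge (max (288 / (η * e)) 8)
  have hs8 : (8 : ℝ) ≤ s₀ := (le_max_right _ _).trans hs₀
  have hs8' : 8 ≤ s₀ := by exact_mod_cast hs8
  have hse : 288 / (η * e) ≤ s₀ := (le_max_left _ _).trans hs₀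
  have he₁ : 0 < min (e / 400) 1 := lt_min (by positivity) one_pos
  refine ⟨min (e / 400) 1, s₀, he₁, ?_⟩
  intro s h X lam hs hsh hhX hlam hstr
  set e₁ : ℝ := min (e / 400) 1 with hedef
  have he1a : e₁ ≤ e / 400 := min_le_left _ _
  have he1b : e₁ ≤ 1 := min_le_right _ _
  have hSpos : 1 ≤ 2 ^ s := Nat.one_le_two_pow
  -- lengths
  have hpow : 2 ^ s * 2 ≤ 2 ^ h := by
    rw [← pow_succ]
    exact Nat.pow_le_pow_right (by norm_num) (by omega)
  obtain ⟨T, hT⟩ : ∃ T, 2 ^ s + T = 2 ^ h := ⟨2 ^ h - 2 ^ s, by omega⟩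
  have hT1 : 1 ≤ T := by omega
  have hT2 : 2 ^ h ≤ 2 * T := by omega
  have hTH : T ≤ 2 ^ h := by omega
  -- the logarithm
  have hh16 : (16 : ℝ) ≤ h := by
    have : 16 ≤ h := by omega
    exact_mod_cast this
  have hlog : 3200 / e + 8 ≤ Real.log X := by
    have h2 : 16 ≤ e₁ * Real.log X := hh16.trans hhX
    have h3 : 0 < Real.log X := by
      by_contra hneg
      push Not at hneg
      nlinarith
    have h4 : 16 ≤ e / 400 * Real.log X := h2.trans (mul_le_mul_of_nonneg_right he1a h3.le)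
    have h5 : 16 ≤ 1 * Real.log X := h2.trans (mul_le_mul_of_nonneg_right he1b h3.le)
    have h6 : 6400 / e ≤ Real.log X := by
      rw [div_le_iff₀ he]; linarith
    have h7 : 3200 / e = (6400 / e) / 2 := by ring
    rw [h7]; linarith
  have hlog0 : 0 < Real.log X := by
    have : 0 < 3200 / e := by positivity
    linarith
  -- the functions
  have hgd : ∀ n : ℕ, ∃ θ φ : ℝ, GW lam (2 * (4 * l ^ 2)) η e₁ (2 ^ h) n →
      GD lam (2 * (4 * l ^ 2)) η e₁ (2 ^ h) n θ φ := by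
    intro n
    by_cases hg : GW lam (2 * (4 * l ^ 2)) η e₁ (2 ^ h) n
    · obtain ⟨θ, φ, hd⟩ := hg
      exact ⟨θ, φ, fun _ => hd⟩
    · exact ⟨0, 0, fun h => absurd h hg⟩
  choose θ φ hθ using hgd
  set V : ℕ → ℕ → ℝ := VV lam (2 * (4 * l ^ 2)) η e₁ (2 ^ h) (2 ^ s) (fun x => p.eval x) θ φ
    with hV
  have hV0 : ∀ a b, 0 ≤ V a b := fun a b => VV_nonneg _ _ _ _ _ _ _ _ _ _ _
  have hrep : ∀ n : ℕ, ∃ (b : ℕ → ℂ) (β : ℕ → ℝ), (∀ r, ‖b r‖ ≤ 1) ∧
      (∑ m ∈ Ioc n (n + 2 ^ s), ‖(lam m : ℂ) - ∑ r ∈ range R, b r * ee (β r * m)‖ ^ 2) /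
        ((2 ^ s : ℕ) : ℝ) ≤ if n ≤ T then 1 else (∑ t ∈ range T, V (n - t) n) / T := by
    intro n
    split_ifs with hn
    · refine ⟨fun _ => 0, fun _ => 0, by simp, ?_⟩
      have h1 : ∀ m ∈ Ioc n (n + 2 ^ s),
          ‖(lam m : ℂ) - ∑ r ∈ range R, 0 * ee (0 * m)‖ ^ 2 = 1 := by
        intro m _
        simp only [zero_mul, sum_const_zero, sub_zero]
        rw [Complex.norm_real, Real.norm_eq_abs, sq_abs]
        rcases hlam m with h | h <;> rw [h] <;> norm_num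
      rw [sum_congr rfl h1, sum_const, Nat.card_Ioc, show n + 2 ^ s - n = 2 ^ s by omega,
        nsmul_eq_mul, mul_one, div_self (by positivity)]
    · have h1 : ∃ t ∈ range T, V (n - t) n ≤ (∑ t ∈ range T, V (n - t) n) / T := by
        apply exists_le_of_sum_le (by rw [nonempty_range_iff]; omega)
        rw [sum_const, card_range, nsmul_eq_mul, mul_div_cancel₀]
        have : (0 : ℝ) < T := by exact_mod_cast hT1
        exact this.ne'
      obtain ⟨t, ht, htV⟩ := h1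
      obtain ⟨b, β, hb, hbe⟩ := rep (p := fun x => p.eval x) hc hpc lam hlam (2 * (4 * l ^ 2)) η e₁ (2 ^ h) (2 ^ s) hSpos
        θ φ (n - t) n
      exact ⟨b, β, hb, hbe.le.trans htV⟩
  choose b β hb hbe using hrep
  refine ⟨b, β, hb, ?_⟩
  have hmean := mean_err hl1' hρ1 (fun c hc => (hp c hc).le) hη hSpos hT1 hT hT2 hlam
    he₁.le hθ
  set W : ℝ := ρ ^ 2 + 36 / Real.sqrt (2 * (4 * l ^ 2 : ℕ) + 1) + 18 / (η * (2 ^ s : ℕ)) +
    18 * e₁ with hW
  have hW0 : 0 ≤ W := by positivity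
  have hWe : W ≤ e / 4 := by
    have h2 : 18 / (η * ((2 ^ s : ℕ) : ℝ)) ≤ e / 16 := by
      have h3 : (s₀ : ℝ) ≤ ((2 ^ s : ℕ) : ℝ) := by
        have : s₀ ≤ 2 ^ s := hs.trans Nat.lt_two_pow_self.le
        exact_mod_cast this
      have h4 : 288 / (η * e) ≤ ((2 ^ s : ℕ) : ℝ) := hse.trans h3
      rw [div_le_iff₀ (by positivity)] at h4
      rw [div_le_div_iff₀ (by positivity) (by norm_num)]
      linarith
    linarith
  have htot := total_le (X := X) (H := 2 ^ h) hT1 hTH V hV0 hW0 hmean hstr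
    (fun n => (∑ m ∈ Ioc n (n + 2 ^ s),
      ‖(lam m : ℂ) - ∑ r ∈ range R, b n r * ee (β n r * m)‖ ^ 2) / ((2 ^ s : ℕ) : ℝ)) hbe
  unfold lg
  refine htot.trans ?_
  have hlogH : Real.log ((2 ^ h : ℕ) : ℝ) ≤ e₁ * Real.log X := by
    push_cast
    rw [Real.log_pow]
    have h2 : Real.log 2 ≤ 1 := by
      have := Real.log_le_sub_one_of_pos (show (0 : ℝ) < 2 by norm_num)
      linarith
    calc (h : ℝ) * Real.log 2 ≤ h * 1 := mul_le_mul_of_nonneg_left h2 (Nat.cast_nonneg _)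
      _ ≤ _ := by linarith
  have h8 : e₁ * Real.log X ≤ e / 400 * Real.log X := mul_le_mul_of_nonneg_right he1a hlog0.le
  have h9 : W * (1 + Real.log X) ≤ e / 4 * (1 + Real.log X) :=
    mul_le_mul_of_nonneg_right hWe (by linarith)
  have h10 : 3200 + 8 * e ≤ e * Real.log X := by
    have := mul_le_mul_of_nonneg_left hlog he.le
    have e3 : e * (3200 / e + 8) = 3200 + 8 * e := by field_simp
    linarith
  nlinarith

end Pool.Agent.H84.BAS
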