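import Pool.Agent.H84.BAS.TP

/-!
# Mean values of powers of the cosine at generic frequencies (row BAS of MP_c59857_nt)
-/

set_option autoImplicit false

namespace Pool.Agent.H84.BAS

open Finset Pool.Agent.H6.N4D

lemma centralBinom_sq (k : ℕ) : (Nat.centralBinom k) ^ 2 * (2 * k + 1) ≤ 16 ^ k := by
  induction k with
  | zero => simp
  | succ k ih =>
    have h1 := Nat.succ_mul_centralBinom_succ k
    have h2 : (k + 1) ^ 2 * ((Nat.centralBinom (k + 1)) ^ 2 * (2 * (k + 1) + 1)) ≤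
        (k + 1) ^ 2 * 16 ^ (k + 1) := by
      calc (k + 1) ^ 2 * ((Nat.centralBinom (k + 1)) ^ 2 * (2 * (k + 1) + 1))
          = ((k + 1) * Nat.centralBinom (k + 1)) ^ 2 * (2 * (k + 1) + 1) := by ring
        _ = (2 * (2 * k + 1) * Nat.centralBinom k) ^ 2 * (2 * (k + 1) + 1) := by rw [h1]
        _ = (Nat.centralBinom k ^ 2 * (2 * k + 1)) * (4 * (2 * k + 1) * (2 * k + 3)) := by ring
        _ ≤ 16 ^ k * (4 * (2 * k + 1) * (2 * k + 3)) := Nat.mul_le_mul_right _ ih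
        _ ≤ 16 ^ k * (16 * (k + 1) ^ 2) := by
            apply Nat.mul_le_mul_left
            nlinarith
        _ = (k + 1) ^ 2 * 16 ^ (k + 1) := by ring
    exact Nat.le_of_mul_le_mul_left h2 (by positivity)

/-- the mean value of an even power of the cosine -/
lemma cb_le (k : ℕ) : ((2 * k).choose k : ℝ) / 4 ^ k ≤ 1 / Real.sqrt (2 * k + 1) := by
  have h := centralBinom_sq k
  rw [Nat.centralBinom_eq_two_mul_choose] at h
  have h1 : (((2 * k).choose k : ℝ)) ^ 2 * (2 * k + 1) ≤ 16 ^ k := by exact_mod_cast h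
  have h2 : (0 : ℝ) < 2 * k + 1 := by positivity
  have h3 : 0 < Real.sqrt (2 * k + 1) := Real.sqrt_pos.2 h2
  rw [div_le_div_iff₀ (by positivity) h3, one_mul]
  apply le_of_sq_le_sq _ (by positivity)
  rw [mul_pow, Real.sq_sqrt h2.le]
  calc _ ≤ (16 : ℝ) ^ k := h1
    _ = (4 ^ k) ^ 2 := by rw [← pow_mul, mul_comm k 2, pow_mul]; norm_num

lemma nd_ge_of_generic {Q : ℕ} {η θ : ℝ} (h : ∀ q : ℕ, 1 ≤ q → q ≤ Q → η ≤ nd (q * θ))
    {l : ℤ} (h0 : l ≠ 0) (hl : l.natAbs ≤ Q) : η ≤ nd (l * θ) := by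
  have h1 : 1 ≤ l.natAbs := by omega
  have h2 := h l.natAbs h1 hl
  have h4 : ((l.natAbs : ℕ) : ℝ) = |(l : ℝ)| := by
    rw [← Int.cast_abs, Int.abs_eq_natAbs]; simp
  rw [h4] at h2
  rcases abs_choice (l : ℝ) with h3 | h3
  · rwa [h3] at h2
  · rwa [h3, neg_mul, nd_neg] at h2

/-- equidistribution: the mean of an even power of the cosine on a window -/
theorem cos_pow_mean {k : ℕ} {η θ : ℝ} (hη : 0 < η)
    (h : ∀ q : ℕ, 1 ≤ q → q ≤ 2 * k → η ≤ nd (q * θ)) (φ : ℝ) (n S : ℕ) :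
    ∑ m ∈ Ioc n (n + S), Real.cos (2 * Real.pi * (θ * m + φ)) ^ (2 * k) ≤
      S / Real.sqrt (2 * k + 1) + 1 / (2 * η) := by
  have e1 : ∀ x : ℝ, ((Real.cos (2 * Real.pi * x) ^ (2 * k) : ℝ) : ℂ) =
      ∑ i ∈ range (2 * k + 1), (((2 * k).choose i : ℝ) / 4 ^ k : ℝ) *
        ee (((2 * i - 2 * k : ℤ) : ℝ) * x) := by
    intro x
    push_cast
    rw [show Complex.cos (2 * Real.pi * x) = ((Real.cos (2 * Real.pi * x) : ℝ) : ℂ) by push_cast; rfl,
      cos_eq_ee, div_pow, add_pow, sum_div]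
    apply sum_congr rfl
    intro i hi
    rw [mem_range] at hi
    have h1 : ee x ^ i = ee (i * x) := by
      have : ∀ j : ℕ, ee x ^ j = ee (j * x) := by
        intro j
        induction j with
        | zero => simpa using (ee_int 0).symm
        | succ j ih => rw [pow_succ, ih, ← ee_add]; congr 1; push_cast; ring
      exact this i
    have h2 : ee (-x) ^ (2 * k - i) = ee (-((2 * k - i : ℕ) * x)) := by
      have : ∀ j : ℕ, ee (-x) ^ j = ee (-(j * x)) := by
        intro j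
        induction j with
        | zero => simpa using (ee_int 0).symm
        | succ j ih => rw [pow_succ, ih, ← ee_add]; congr 1; push_cast; ring
      exact this _
    rw [h1, h2, ← ee_add]
    have h3 : (i : ℝ) * x + -(((2 * k - i : ℕ) : ℝ) * x) = ((2 * i - 2 * k : ℤ) : ℝ) * x := by
      rw [Nat.cast_sub (by omega)]; push_cast; ring
    rw [h3, show (2 : ℂ) ^ (2 * k) = 4 ^ k by rw [pow_mul]; norm_num]
    push_cast
    ring
  have e2 : ((∑ m ∈ Ioc n (n + S), Real.cos (2 * Real.pi * (θ * m + φ)) ^ (2 * k) : ℝ) : ℂ) =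
      ∑ i ∈ range (2 * k + 1), (((2 * k).choose i : ℝ) / 4 ^ k : ℝ) *
        (ee (((2 * i - 2 * k : ℤ) : ℝ) * φ) *
          ∑ m ∈ Ioc n (n + S), ee ((((2 * i - 2 * k : ℤ) : ℝ) * θ) * m)) := by
    rw [Complex.ofReal_sum]
    simp_rw [e1]
    rw [sum_comm]
    apply sum_congr rfl
    intro i _
    rw [← mul_sum]
    congr 1
    rw [mul_sum]
    apply sum_congr rfl
    intro m _
    rw [← ee_add]; congr 1; ring
  have h3 : ∀ i ∈ range (2 * k + 1), ‖ee (((2 * i - 2 * k : ℤ) : ℝ) * φ) *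
      ∑ m ∈ Ioc n (n + S), ee ((((2 * i - 2 * k : ℤ) : ℝ) * θ) * m)‖ ≤
        (if i = k then (S : ℝ) else 0) + 1 / (2 * η) := by
    intro i hi
    rw [mem_range] at hi
    rw [norm_mul, norm_ee, one_mul]
    by_cases hik : i = k
    · rw [if_pos hik]
      have : ‖∑ m ∈ Ioc n (n + S), ee ((((2 * i - 2 * k : ℤ) : ℝ) * θ) * m)‖ ≤ S := by
        refine (norm_sum_le _ _).trans ?_
        simp only [norm_ee, sum_const, Nat.card_Ioc, nsmul_eq_mul, mul_one]
        simp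
      have h5 : 0 < 1 / (2 * η) := by positivity
      linarith
    · rw [if_neg hik, zero_add]
      have h5 := geom_ee (((2 * i - 2 * k : ℤ) : ℝ) * θ) n S
      have h6 : η ≤ nd (((2 * i - 2 * k : ℤ) : ℝ) * θ) := by
        apply nd_ge_of_generic h
        · omega
        · omega
      rw [le_div_iff₀ (by positivity)]
      refine le_trans ?_ h5
      rw [mul_comm]
      apply mul_le_mul_of_nonneg_right _ (norm_nonneg _)
      linarith
  have h4 : ∑ m ∈ Ioc n (n + S), Real.cos (2 * Real.pi * (θ * m + φ)) ^ (2 * k) ≤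
      ‖((∑ m ∈ Ioc n (n + S), Real.cos (2 * Real.pi * (θ * m + φ)) ^ (2 * k) : ℝ) : ℂ)‖ := by
    rw [Complex.norm_real]
    exact le_abs_self _
  refine h4.trans ?_
  rw [e2]
  refine (norm_sum_le _ _).trans ?_
  have h5 : ∀ i ∈ range (2 * k + 1), ‖((((2 * k).choose i : ℝ) / 4 ^ k : ℝ) : ℂ) *
      (ee (((2 * i - 2 * k : ℤ) : ℝ) * φ) *
          ∑ m ∈ Ioc n (n + S), ee ((((2 * i - 2 * k : ℤ) : ℝ) * θ) * m))‖ ≤
      (((2 * k).choose i : ℝ) / 4 ^ k) * ((if i = k then (S : ℝ) else 0) + 1 / (2 * η)) := by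
    intro i hi
    rw [norm_mul, Complex.norm_real, Real.norm_eq_abs, abs_of_nonneg (by positivity)]
    exact mul_le_mul_of_nonneg_left (h3 i hi) (by positivity)
  refine (sum_le_sum h5).trans ?_
  have h6 : ∑ i ∈ range (2 * k + 1), (((2 * k).choose i : ℝ) / 4 ^ k) = 1 := by
    rw [← sum_div]
    have := Nat.sum_range_choose (2 * k)
    have h7 : ∑ i ∈ range (2 * k + 1), ((2 * k).choose i : ℝ) = 4 ^ k := by
      rw [← Nat.cast_sum, this]; push_cast; rw [pow_mul]; norm_num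
    rw [h7, div_self (by positivity)]
  simp_rw [mul_add]
  rw [sum_add_distrib, ← sum_mul, h6, one_mul]
  have h8 : ∑ i ∈ range (2 * k + 1), ((2 * k).choose i : ℝ) / 4 ^ k *
      (if i = k then (S : ℝ) else 0) = ((2 * k).choose k : ℝ) / 4 ^ k * S := by
    simp_rw [mul_ite, mul_zero]
    rw [sum_ite_eq' (range (2 * k + 1)) k (fun i => ((2 * k).choose i : ℝ) / 4 ^ k * (S : ℝ)),
      if_pos (by rw [mem_range]; omega)]
  rw [h8]
  have h9 := mul_le_mul_of_nonneg_right (cb_le k) (Nat.cast_nonneg (α := ℝ) S)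
  have h10 : 1 / Real.sqrt (2 * k + 1) * (S : ℝ) = S / Real.sqrt (2 * k + 1) := by ring
  linarith

end Pool.Agent.H84.BAS
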